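import Mathlib

/-!
# MP_31d4f2_co: canonical forms for positions with Left and Right terminals

* `Pos`: positions. `term true` is `*L`, `term false` is `*R`, and `node n f` is the position with
  the options `f 0, …, f n`.
* `Iso`: isomorphism of positions. `add`: the disjunctive sum. `leftWins G b`: Left wins `G` when
  the player `b` moves first (`true`: Left, `false`: Right). `outcome`: the outcome class.
* `Equi G H`: `G` and `H` are equivalent.
* `Step G H`: `H` arises from `G` by one application of (S1) or (S2) to `G` or to a position in the
  game tree of `G`. `Reduced G`: no step applies to `G`.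

**Theorem.** The position `G = {{*L}, {*L, {*L}}}` can be simplified by (S1) to `*L` and by (S2) to
`{{*L, {*L}}}`; both are reduced, and they are not isomorphic. So exhaustive simplification does not
produce a canonical form: the answer to Q1 is negative.
-/

set_option autoImplicit false

namespace Pool.Agent.Results.MP_31d4f2_co.NoCanonicalForm

/-- Positions: `term true` is `*L`, `term false` is `*R`, `node n f` is `{f 0, …, f n}`. -/
inductive Pos : Type
  | term (b : Bool) : Pos
  | node (n : ℕ) (f : Fin (n + 1) → Pos) : Pos

open Pos

/-- Isomorphism: both are `*L`, or both are `*R`, or both are non-terminal and each option of either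
one is isomorphic to some option of the other. -/
def Iso : Pos → Pos → Prop
  | .term a, .term b => a = b
  | .node _ f, .node _ g => (∀ i, ∃ j, Iso (f i) (g j)) ∧ ∀ j, ∃ i, Iso (f i) (g j)
  | .term _, .node _ _ => False
  | .node _ _, .term _ => False

/-- The sum of a terminal position and a position: `*L + *L = *R + *R = *L`, `*L + *R = *R`, and the
options of `*L + G` are the `*L + G'`. -/
def addTerm (a : Bool) : Pos → Pos
  | .term b => .term (a == b)
  | .node n f => .node n fun i => addTerm a (f i)

/-- The sum of a non-terminal position with `n + 1` options `G'` and a position `H`; `F i` is the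
function `H ↦ G' + H` for the `i`-th option. The options are `G' + H` and, if `H` is not terminal,
`G + H'`. -/
def addNode (n : ℕ) (F : Fin (n + 1) → Pos → Pos) : Pos → Pos
  | .term b => .node n fun i => F i (.term b)
  | .node m g => .node (n + 1 + m) fun k =>
      if h : (k : ℕ) < n + 1 then F ⟨k, h⟩ (.node m g)
      else addNode n F (g ⟨k - (n + 1), by have := k.2; omega⟩)

/-- The disjunctive sum. -/
def add : Pos → Pos → Pos
  | .term a, H => addTerm a H
  | .node n f, H => addNode n (fun i => add (f i)) H

/-- Left wins when the player `b` moves first (`true` is Left, `false` is Right). -/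
def leftWins : Pos → Bool → Bool
  | .term b, _ => b
  | .node _ f, true => decide (∃ i, leftWins (f i) false = true)
  | .node _ f, false => decide (∀ i, leftWins (f i) true = true)

/-- The four outcome classes. -/
inductive Outcome : Type
  | L | R | N | P

/-- The outcome class of a position. -/
def outcome (G : Pos) : Outcome :=
  match leftWins G true, leftWins G false with
  | true, true => .L
  | false, false => .R
  | true, false => .N
  | false, true => .P

/-- Equivalence of positions. -/
def Equi (G H : Pos) : Prop := ∀ X : Pos, outcome (add G X) = outcome (add H X)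

/-- `K` is an option of `G`. -/
def IsOption (K : Pos) : Pos → Prop
  | .term _ => False
  | .node _ f => ∃ i, f i = K

/-- The position `{G}`. -/
def single (G : Pos) : Pos := .node 0 fun _ => G

/-- One simplification step. -/
inductive Step : Pos → Pos → Prop
  | s1 (b : Bool) (n : ℕ) (f : Fin (n + 1) → Pos) (i : Fin (n + 1))
      (h : Equi (f i) (single (.term b))) (h' : ∀ j, ∃ K, IsOption K (f j) ∧ Equi K (.term b)) :
      Step (.node n f) (.term b)
  | s2 (n : ℕ) (f : Fin (n + 1) → Pos) (i : Fin (n + 1)) (hn : 2 ≤ n + 1)
      (h : ∀ j, j ≠ i → ∃ K, IsOption K (f j) ∧ Equi K (single (f i))) :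
      Step (.node n f) (single (f i))
  | inner (n : ℕ) (f : Fin (n + 1) → Pos) (i : Fin (n + 1)) (H : Pos) (h : Step (f i) H) :
      Step (.node n f) (.node n (Function.update f i H))

/-- No simplification step applies. -/
def Reduced (G : Pos) : Prop := ∀ H, ¬ Step G H

/-- `{A, B}` -/
def pair (A B : Pos) : Pos := .node 1 ![A, B]

/-- `H = {*L, {*L}}` -/
def HH : Pos := pair (.term true) (single (.term true))

/-- `G = {{*L}, {*L, {*L}}}` -/
def GG : Pos := pair (single (.term true)) HH

theorem addTerm_true (X : Pos) : addTerm true X = X := by
  induction X with
  | term b => cases b <;> rfl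
  | node n f ih =>
    rw [addTerm]
    congr 1
    funext i
    exact ih i

theorem equi_refl (G : Pos) : Equi G G := fun _ => rfl

theorem outcome_eq {G H : Pos} (h : ∀ b, leftWins G b = leftWins H b) : outcome G = outcome H := by
  rw [outcome, outcome, h true, h false]

theorem leftWins_eq {G H : Pos} (h : outcome G = outcome H) (b : Bool) :
    leftWins G b = leftWins H b := by
  unfold outcome at h
  cases b <;> revert h <;> cases leftWins G true <;> cases leftWins G false <;>
    cases leftWins H true <;> cases leftWins H false <;> simp

/-- adding `{*L, {*L}}` and moving back to `*L` -/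
theorem key (X : Pos) : ∀ b, leftWins (add (single HH) X) b = leftWins X b := by
  induction X with
  | term b => cases b <;> intro c <;> cases c <;> decide
  | node m g ih =>
    have hH : ∀ c, leftWins (add HH (.node m g)) c =
        if c then decide (∃ k : Fin (1 + 1 + m + 1), leftWins
          ((fun k : Fin (1 + 1 + m + 1) => if h : (k : ℕ) < 1 + 1 then
            (fun i => add ((![.term true, single (.term true)] : Fin 2 → Pos) i)) ⟨k, h⟩
              (.node m g)
          else addNode 1 (fun i => add ((![.term true, single (.term true)] : Fin 2 → Pos) i))
            (g ⟨k - (1 + 1), by have := k.2; omega⟩)) k) false = true)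
        else decide (∀ k : Fin (1 + 1 + m + 1), leftWins
          ((fun k : Fin (1 + 1 + m + 1) => if h : (k : ℕ) < 1 + 1 then
            (fun i => add ((![.term true, single (.term true)] : Fin 2 → Pos) i)) ⟨k, h⟩
              (.node m g)
          else addNode 1 (fun i => add ((![.term true, single (.term true)] : Fin 2 → Pos) i))
            (g ⟨k - (1 + 1), by have := k.2; omega⟩)) k) true = true) := by
      intro c
      cases c <;> rfl
    have h0 : add (.term true) (.node m g) = .node m g := addTerm_true _
    have hT : leftWins (.node m g) false = true → leftWins (add HH (.node m g)) true = true := by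
      intro h
      rw [hH]
      simp only [if_true, decide_eq_true_eq]
      refine ⟨⟨0, by omega⟩, ?_⟩
      simp only [Nat.reduceAdd, Nat.ofNat_pos, ↓reduceDIte, Fin.zero_eta, Matrix.cons_val_zero]
      rw [h0]
      exact h
    have hF : leftWins (add HH (.node m g)) false = true → leftWins (.node m g) true = true := by
      intro h
      rw [hH] at h
      simp only [Bool.false_eq_true, if_false, decide_eq_true_eq] at h
      have h1 := h ⟨0, by omega⟩
      simp only [Nat.reduceAdd, Nat.ofNat_pos, ↓reduceDIte, Fin.zero_eta,
        Matrix.cons_val_zero] at h1
      rw [h0] at h1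
      exact h1
    have hopt : ∀ c, (∃ k : Fin (0 + 1 + m + 1), leftWins
        (if h : (k : ℕ) < 0 + 1 then add HH (.node m g)
          else add (single HH) (g ⟨k - (0 + 1), by have := k.2; omega⟩)) c = true) ↔
        leftWins (add HH (.node m g)) c = true ∨ ∃ j, leftWins (g j) c = true := by
      intro c
      constructor
      · rintro ⟨k, hk⟩
        by_cases h : (k : ℕ) < 0 + 1
        · rw [dif_pos h] at hk
          exact Or.inl hk
        · rw [dif_neg h, ih] at hk
          exact Or.inr ⟨_, hk⟩
      · rintro (h | ⟨j, hj⟩)
        · refine ⟨⟨0, by omega⟩, ?_⟩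
          rw [dif_pos (by simp)]
          exact h
        · refine ⟨⟨j + 1, by have := j.2; omega⟩, ?_⟩
          rw [dif_neg (by simp), ih]
          simpa using hj
    have hopt' : ∀ c, (∀ k : Fin (0 + 1 + m + 1), leftWins
        (if h : (k : ℕ) < 0 + 1 then add HH (.node m g)
          else add (single HH) (g ⟨k - (0 + 1), by have := k.2; omega⟩)) c = true) ↔
        leftWins (add HH (.node m g)) c = true ∧ ∀ j, leftWins (g j) c = true := by
      intro c
      constructor
      · intro h
        refine ⟨?_, fun j => ?_⟩
        · have h1 := h ⟨0, by omega⟩
          rw [dif_pos (by simp)] at h1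
          exact h1
        · have h1 := h ⟨j + 1, by have := j.2; omega⟩
          rw [dif_neg (by simp), ih] at h1
          simpa using h1
      · rintro ⟨h1, h2⟩ k
        by_cases h : (k : ℕ) < 0 + 1
        · rw [dif_pos h]
          exact h1
        · rw [dif_neg h, ih]
          exact h2 _
    intro c
    cases c
    · change decide (∀ k : Fin (0 + 1 + m + 1), leftWins
        (if h : (k : ℕ) < 0 + 1 then add HH (.node m g)
          else add (single HH) (g ⟨k - (0 + 1), by have := k.2; omega⟩)) true = true) =
        decide (∀ j, leftWins (g j) true = true)
      rw [decide_eq_decide, hopt']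
      constructor
      · exact fun h => h.2
      · intro h
        refine ⟨hT ?_, h⟩
        change decide (∀ j, leftWins (g j) true = true) = true
        rw [decide_eq_true_eq]
        exact h
    · change decide (∃ k : Fin (0 + 1 + m + 1), leftWins
        (if h : (k : ℕ) < 0 + 1 then add HH (.node m g)
          else add (single HH) (g ⟨k - (0 + 1), by have := k.2; omega⟩)) false = true) =
        decide (∃ j, leftWins (g j) false = true)
      rw [decide_eq_decide, hopt]
      constructor
      · rintro (h | h)
        · have h1 := hF h
          change decide (∃ j, leftWins (g j) false = true) = true at h1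
          rwa [decide_eq_true_eq] at h1
        · exact h
      · exact Or.inr

theorem equi_key : Equi (.term true) (single HH) := fun X => outcome_eq fun b => by
  rw [key X b]
  change leftWins (addTerm true X) b = _
  rw [addTerm_true]

/-- `*L` and `{*L}` are not equivalent -/
theorem not_equi_1 : ¬ Equi (.term true) (single (.term true)) := fun h => by
  have h1 := leftWins_eq (h (single (pair (.term true) (.term false)))) true
  revert h1
  decide

/-- `{*L, {*L}}` and `{*L}` are not equivalent -/
theorem not_equi_2 : ¬ Equi HH (single (.term true)) := fun h => by
  have h1 := leftWins_eq (h (single (single (pair (.term true) (.term false))))) true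
  revert h1
  decide

theorem not_equi_3 : ¬ Equi HH (single (.term false)) := fun h => by
  have h1 := leftWins_eq (h (.term true)) true
  revert h1
  decide

theorem not_equi_4 : ¬ Equi (.term true) (single (.term false)) := fun h => by
  have h1 := leftWins_eq (h (.term true)) true
  revert h1
  decide

theorem reduced_term (b : Bool) : Reduced (.term b) := fun H h => by cases h

theorem reduced_single {A : Pos} (hA : Reduced A) (h : ∀ b, ¬ Equi A (single (.term b))) :
    Reduced (single A) := by
  intro H hs
  rcases hs with ⟨b, n, f, i, h1, h2⟩ | ⟨n, f, i, hn, h1⟩ | ⟨n, f, i, H, h1⟩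
  · exact h b h1
  · omega
  · exact hA _ h1

theorem reduced_HH : Reduced HH := by
  intro H hs
  rcases hs with ⟨b, n, f, i, h1, h2⟩ | ⟨n, f, i, hn, h1⟩ | ⟨n, f, i, H, h1⟩
  · obtain ⟨K, hK, -⟩ := h2 0
    exact hK
  · fin_cases i
    · obtain ⟨K, hK, hE⟩ := h1 1 (by decide)
      obtain ⟨j, rfl⟩ := hK
      exact not_equi_1 hE
    · obtain ⟨K, hK, -⟩ := h1 0 (by decide)
      exact hK
  · fin_cases i
    · exact reduced_term true _ h1
    · refine reduced_single (reduced_term true) (fun b => ?_) _ h1
      cases b
      · exact not_equi_4
      · exact not_equi_1

theorem reduced_PP : Reduced (single HH) :=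
  reduced_single reduced_HH fun b => by
    cases b
    · exact not_equi_3
    · exact not_equi_2

/-- **No canonical form**: `G = {{*L}, {*L, {*L}}}` simplifies in one step to `*L` and in one step
to `{{*L, {*L}}}`, both are reduced, and they are not isomorphic. -/
theorem result : ∃ G A B : Pos, Relation.ReflTransGen Step G A ∧ Reduced A ∧
    Relation.ReflTransGen Step G B ∧ Reduced B ∧ ¬ Iso A B := by
  refine ⟨GG, .term true, single HH, .single ?_, reduced_term true, .single ?_, reduced_PP,
    fun h => h⟩
  · refine Step.s1 true 1 _ 0 (equi_refl _) ?_
    intro j
    fin_cases j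
    · exact ⟨.term true, ⟨0, rfl⟩, equi_refl _⟩
    · exact ⟨.term true, ⟨0, rfl⟩, equi_refl _⟩
  · refine Step.s2 1 ![single (.term true), HH] 1 le_rfl ?_
    intro j hj
    fin_cases j
    · exact ⟨.term true, ⟨0, rfl⟩, equi_key⟩
    · exact absurd rfl hj

end Pool.Agent.Results.MP_31d4f2_co.NoCanonicalForm
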