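import Mathlib

/-!
# Positions with Left and Right terminals: simplification does not give a canonical form

The position `G = {{*L, {*L}}, {*L}}` simplifies by (S1) to `*L` and by (S2) to
`{{*L, {*L}}}`. Both are reduced, and they are not isomorphic.
-/

namespace Pool.Agent.Results.MP_31d4f2_co.TwoReducedForms

/-- Positions: `terL` and `terR` are the two terminal positions `*L`, `*R`; `node n f` is the
non-terminal position with the `n + 1` options `f 0, ..., f n` (so there is at least one). -/
inductive Pos : Type
  | terL : Pos
  | terR : Pos
  | node : (n : ℕ) → (Fin (n + 1) → Pos) → Pos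

open Pos

/-- The list of options of a position (empty exactly for the terminal ones). -/
def opts : Pos → List Pos
  | terL => []
  | terR => []
  | node _ f => List.ofFn f

/-- A size function, used only for termination. -/
def size : Pos → ℕ
  | terL => 1
  | terR => 1
  | node _ f => 1 + ∑ i, size (f i)

lemma size_lt {x G : Pos} (h : x ∈ opts G) : size x < size G := by
  cases G with
  | terL => simp [opts] at h
  | terR => simp [opts] at h
  | node n f =>
    simp only [opts, List.mem_ofFn] at h
    obtain ⟨i, rfl⟩ := h
    have : size (f i) ≤ ∑ i, size (f i) :=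
      Finset.single_le_sum (f := fun i => size (f i)) (fun _ _ => Nat.zero_le _)
        (Finset.mem_univ i)
    simp only [size]
    omega

/-- The non-terminal position with a given nonempty list of options (the value at the empty list
is never used). -/
def ofList : List Pos → Pos
  | [] => terL
  | a :: l => node l.length (a :: l).get

/-- The position `{G}` whose only option is `G`. -/
def single (G : Pos) : Pos := node 0 fun _ => G

/-- The disjunctive sum. Two terminal positions are added by the given table; otherwise the
options of `G + H` are the positions `G' + H` and `G + H'`. -/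
def add : Pos → Pos → Pos
  | terL, terL => terL
  | terR, terR => terL
  | terL, terR => terR
  | terR, terL => terR
  | G, H =>
    ofList (((opts G).attach.map fun x => add x.1 H) ++ ((opts H).attach.map fun y => add G y.1))
termination_by G H => size G + size H
decreasing_by
  · have := size_lt x.2
    omega
  · have := size_lt y.2
    omega

/-- The two players. -/
inductive Player : Type
  | left : Player
  | right : Player
  deriving DecidableEq

/-- The opponent. -/
def other : Player → Player
  | Player.left => Player.right
  | Player.right => Player.left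

/-- `wins p q G`: player `p` wins (has a winning strategy in) the position `G` when player `q` is
to move. Left wins at `*L`, Right wins at `*R`. -/
def wins (p : Player) : Player → Pos → Prop
  | _, terL => p = Player.left
  | _, terR => p = Player.right
  | q, node _ f =>
    (q = p ∧ ∃ i, wins p (other q) (f i)) ∨ (q ≠ p ∧ ∀ i, wins p (other q) (f i))

/-- The four outcome classes. -/
inductive Outcome : Type
  | L : Outcome
  | R : Outcome
  | N : Outcome
  | P : Outcome

open Classical in
/-- The outcome of a position: `L` if Left wins whoever moves first, `R` if Left wins neither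
moving first nor moving second (that is, Right wins whoever moves first), `N` if Left wins moving
first but not moving second (the player who moves first wins), `P` if Left wins moving second but
not moving first (the other player wins). -/
noncomputable def outcome (G : Pos) : Outcome :=
  if wins Player.left Player.left G then
    (if wins Player.left Player.right G then Outcome.L else Outcome.N)
  else
    (if wins Player.left Player.right G then Outcome.P else Outcome.R)

/-- Equivalence of positions: equal outcomes in every sum. -/
def Equi (G H : Pos) : Prop := ∀ X : Pos, outcome (add G X) = outcome (add H X)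

/-- Isomorphism of positions. -/
def Iso : Pos → Pos → Prop
  | terL, terL => True
  | terR, terR => True
  | node _ f, node _ g => (∀ i, ∃ j, Iso (f i) (g j)) ∧ (∀ j, ∃ i, Iso (f i) (g j))
  | _, _ => False

/-- One simplification step: (S1) for `*L` and for `*R`, (S2), or one of these applied inside an
option (hence anywhere in the game tree). -/
inductive Step : Pos → Pos → Prop
  | s1L (G G₁ : Pos) (h₁ : G₁ ∈ opts G) (h₂ : Equi G₁ (single terL))
      (h₃ : ∀ x ∈ opts G, ∃ y ∈ opts x, Equi y terL) : Step G terL
  | s1R (G G₁ : Pos) (h₁ : G₁ ∈ opts G) (h₂ : Equi G₁ (single terR))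
      (h₃ : ∀ x ∈ opts G, ∃ y ∈ opts x, Equi y terR) : Step G terR
  | s2 (G G₁ : Pos) (rest : List Pos) (h₁ : (opts G).Perm (G₁ :: rest)) (h₂ : rest ≠ [])
      (h₃ : ∀ x ∈ rest, ∃ y ∈ opts x, Equi y (single G₁)) : Step G (single G₁)
  | inside (G x x' : Pos) (pre post : List Pos) (h₁ : opts G = pre ++ x :: post)
      (h₂ : Step x x') : Step G (ofList (pre ++ x' :: post))

/-- A position is reduced if no simplification step applies to it. -/
def Reduced (G : Pos) : Prop := ∀ H : Pos, ¬ Step G H

/-! ## Basic lemmas -/

/-- A position is terminal when it has no options. -/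
lemma other_other (p : Player) : other (other p) = p := by cases p <;> rfl

lemma other_ne (p : Player) : other p ≠ p := by cases p <;> simp [other]

lemma eq_other_of_ne {p q : Player} (h : q ≠ p) : q = other p := by
  cases p <;> cases q <;> simp_all [other]

lemma opts_ofList (l : List Pos) : opts (ofList l) = l := by
  cases l with
  | nil => rfl
  | cons a l => exact List.ofFn_get (a :: l)

lemma opts_single (G : Pos) : opts (single G) = [G] := by
  simp [single, opts]

lemma opts_node_ne (n : ℕ) (f : Fin (n + 1) → Pos) : opts (node n f) ≠ [] := by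
  simp [opts]

lemma add_eq {G H : Pos} (h : opts G ≠ [] ∨ opts H ≠ []) :
    add G H = ofList ((opts G).map (fun x => add x H) ++ (opts H).map (fun y => add G y)) := by
  have e1 : ∀ (K : Pos) (f : Pos → Pos), ((opts K).attach.map fun x => f x.1) = (opts K).map f := by
    intro K f
    exact List.attach_map_val
  cases G <;> cases H <;> first
    | (exfalso; simp [opts] at h; done)
    | (rw [add.eq_def]
       exact congrArg ofList (congrArg₂ (· ++ ·) (e1 _ fun x => add x _) (e1 _ fun y => add _ y)))

lemma opts_add {G H : Pos} (h : opts G ≠ [] ∨ opts H ≠ []) :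
    opts (add G H) = (opts G).map (fun x => add x H) ++ (opts H).map (fun y => add G y) := by
  rw [add_eq h, opts_ofList]

lemma wins_eq {p q : Player} {G : Pos} (h : opts G ≠ []) :
    wins p q G ↔ (q = p ∧ ∃ x ∈ opts G, wins p (other q) x) ∨
      (q ≠ p ∧ ∀ x ∈ opts G, wins p (other q) x) := by
  cases G with
  | terL => simp [opts] at h
  | terR => simp [opts] at h
  | node n f =>
    simp only [wins, opts, List.mem_ofFn]
    constructor
    · rintro (⟨h1, i, h2⟩ | ⟨h1, h2⟩)
      · exact Or.inl ⟨h1, f i, ⟨i, rfl⟩, h2⟩
      · refine Or.inr ⟨h1, ?_⟩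
        rintro x ⟨i, rfl⟩
        exact h2 i
    · rintro (⟨h1, x, ⟨i, rfl⟩, h2⟩ | ⟨h1, h2⟩)
      · exact Or.inl ⟨h1, i, h2⟩
      · exact Or.inr ⟨h1, fun i => h2 _ ⟨i, rfl⟩⟩

/-- The player to move wins iff some option is good. -/
lemma wins_self {p : Player} {G : Pos} (h : opts G ≠ []) :
    wins p p G ↔ ∃ x ∈ opts G, wins p (other p) x := by
  rw [wins_eq h]
  simp

/-- The player not to move wins iff all options are good. -/
lemma wins_other {p : Player} {G : Pos} (h : opts G ≠ []) :
    wins p (other p) G ↔ ∀ x ∈ opts G, wins p p x := by
  rw [wins_eq h, other_other]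
  simp [other_ne]

lemma wins_add_self {p : Player} {G H : Pos} (h : opts G ≠ [] ∨ opts H ≠ []) :
    wins p p (add G H) ↔ (∃ x ∈ opts G, wins p (other p) (add x H)) ∨
      ∃ y ∈ opts H, wins p (other p) (add G y) := by
  have hne : opts (add G H) ≠ [] := by
    rw [opts_add h]
    rcases h with h | h
    · intro h'
      rw [List.append_eq_nil_iff] at h'
      exact h (List.map_eq_nil_iff.mp h'.1)
    · intro h'
      rw [List.append_eq_nil_iff] at h'
      exact h (List.map_eq_nil_iff.mp h'.2)
  rw [wins_self hne, opts_add h]
  simp only [List.mem_append, List.mem_map]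
  constructor
  · rintro ⟨x, (⟨y, hy, rfl⟩ | ⟨y, hy, rfl⟩), h2⟩
    · exact Or.inl ⟨y, hy, h2⟩
    · exact Or.inr ⟨y, hy, h2⟩
  · rintro (⟨y, hy, h2⟩ | ⟨y, hy, h2⟩)
    · exact ⟨_, Or.inl ⟨y, hy, rfl⟩, h2⟩
    · exact ⟨_, Or.inr ⟨y, hy, rfl⟩, h2⟩

lemma wins_add_other {p : Player} {G H : Pos} (h : opts G ≠ [] ∨ opts H ≠ []) :
    wins p (other p) (add G H) ↔ (∀ x ∈ opts G, wins p p (add x H)) ∧
      ∀ y ∈ opts H, wins p p (add G y) := by
  have hne : opts (add G H) ≠ [] := by
    rw [opts_add h]
    rcases h with h | h
    · intro h'
      rw [List.append_eq_nil_iff] at h'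
      exact h (List.map_eq_nil_iff.mp h'.1)
    · intro h'
      rw [List.append_eq_nil_iff] at h'
      exact h (List.map_eq_nil_iff.mp h'.2)
  rw [wins_other hne, opts_add h]
  simp only [List.mem_append, List.mem_map]
  constructor
  · intro h2
    exact ⟨fun x hx => h2 _ (Or.inl ⟨x, hx, rfl⟩), fun y hy => h2 _ (Or.inr ⟨y, hy, rfl⟩)⟩
  · rintro ⟨h2, h3⟩ x (⟨y, hy, rfl⟩ | ⟨y, hy, rfl⟩)
    · exact h2 y hy
    · exact h3 y hy

/-- Determinacy: exactly one of the two players wins. -/
lemma wins_other_iff (p : Player) : ∀ (n : ℕ) (q : Player) (G : Pos), size G ≤ n →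
    (wins (other p) q G ↔ ¬ wins p q G) := by
  intro n
  induction n with
  | zero =>
    intro q G h
    cases G <;> simp [size] at h
  | succ n ih =>
    intro q G h
    by_cases ho : opts G = []
    · cases G with
      | terL => cases p <;> simp [wins, other]
      | terR => cases p <;> simp [wins, other]
      | node n f => exact absurd ho (opts_node_ne n f)
    · have key : ∀ x ∈ opts G, size x ≤ n := by
        intro x hx
        have := size_lt hx
        omega
      by_cases hq : q = p
      · subst hq
        rw [wins_self ho]
        have h2 := wins_other (p := other q) (G := G) ho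
        rw [other_other] at h2
        rw [h2]
        push Not
        constructor
        · intro h3 x hx h4
          exact ((ih (other q) x (key x hx)).mp (h3 x hx)) h4
        · intro h3 x hx
          exact (ih (other q) x (key x hx)).mpr (h3 x hx)
      · have hq' := eq_other_of_ne hq
        subst hq'
        rw [wins_self ho, wins_other ho, other_other]
        push Not
        constructor
        · rintro ⟨x, hx, h4⟩
          exact ⟨x, hx, (ih p x (key x hx)).mp h4⟩
        · rintro ⟨x, hx, h4⟩
          exact ⟨x, hx, (ih p x (key x hx)).mpr h4⟩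

lemma not_wins {p q : Player} {G : Pos} (h : ¬ wins p q G) : wins (other p) q G :=
  (wins_other_iff p _ q G le_rfl).mpr h

/-! ## The example -/

/-- `{*L}` -/
def tL : Pos := single terL

/-- `{*L, {*L}}` -/
def G₁ : Pos := ofList [terL, tL]

/-- `{{*L, {*L}}}` -/
def Nn : Pos := single G₁

/-- `{{*L, {*L}}, {*L}}` -/
def Big : Pos := ofList [G₁, tL]

lemma opts_Nn : opts Nn = [G₁] := opts_single _
lemma opts_G₁ : opts G₁ = [terL, tL] := opts_ofList _
lemma opts_tL : opts tL = [terL] := opts_single _
lemma opts_Big : opts Big = [G₁, tL] := opts_ofList _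

lemma terL_mem : terL ∈ opts G₁ := by simp [opts_G₁]

/-- Whoever wins `*L + X` also wins `{{*L, {*L}}} + X`. -/
lemma transfer (p : Player) : ∀ (n : ℕ) (X : Pos), size X ≤ n → ∀ q : Player,
    wins p q (add terL X) → wins p q (add Nn X) := by
  intro n
  induction n with
  | zero =>
    intro X h
    cases X <;> simp [size] at h
  | succ n ih =>
    intro X h q hw
    have hN : opts Nn ≠ [] ∨ opts X ≠ [] := Or.inl (by simp [opts_Nn])
    have hG : opts G₁ ≠ [] ∨ opts X ≠ [] := Or.inl (by simp [opts_G₁])
    have hT : opts tL ≠ [] ∨ opts X ≠ [] := Or.inl (by simp [opts_tL])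
    by_cases ho : opts X = []
    · -- `X` terminal
      have hany : ∀ q' : Player, wins p q' (add terL X) := by
        intro q'
        cases X with
        | terL => simpa [add, wins] using hw
        | terR => simpa [add, wins] using hw
        | node n f => exact absurd ho (opts_node_ne n f)
      have hno : ∀ y ∈ opts X, False := by
        intro y hy
        rw [ho] at hy
        simp at hy
      by_cases hq : q = p
      · subst hq
        rw [wins_add_self hN]
        left
        refine ⟨G₁, by simp [opts_Nn], ?_⟩
        rw [wins_add_other hG]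
        refine ⟨?_, fun y hy => (hno y hy).elim⟩
        intro x hx
        rw [opts_G₁] at hx
        simp only [List.mem_cons, List.not_mem_nil, or_false] at hx
        rcases hx with rfl | rfl
        · exact hany _
        · rw [wins_add_self hT]
          left
          exact ⟨terL, by simp [opts_tL], hany _⟩
      · have hq' := eq_other_of_ne hq
        subst hq'
        rw [wins_add_other hN]
        refine ⟨?_, fun y hy => (hno y hy).elim⟩
        intro x hx
        rw [opts_Nn] at hx
        simp only [List.mem_cons, List.not_mem_nil, or_false] at hx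
        subst hx
        rw [wins_add_self hG]
        left
        exact ⟨terL, terL_mem, hany _⟩
    · have hL : opts terL ≠ [] ∨ opts X ≠ [] := Or.inr ho
      have key : ∀ y ∈ opts X, size y ≤ n := by
        intro y hy
        have := size_lt hy
        omega
      by_cases hq : q = p
      · subst hq
        rw [wins_add_self hL] at hw
        rw [wins_add_self hN]
        right
        rcases hw with ⟨x, hx, _⟩ | ⟨y, hy, hy2⟩
        · simp [opts] at hx
        · exact ⟨y, hy, ih y (key y hy) _ hy2⟩
      · have hq' := eq_other_of_ne hq
        subst hq'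
        have hw0 := hw
        rw [wins_add_other hL] at hw
        rw [wins_add_other hN]
        refine ⟨?_, fun y hy => ih y (key y hy) _ (hw.2 y hy)⟩
        intro x hx
        rw [opts_Nn] at hx
        simp only [List.mem_cons, List.not_mem_nil, or_false] at hx
        subst hx
        rw [wins_add_self hG]
        left
        exact ⟨terL, terL_mem, hw0⟩

lemma wins_Nn (p q : Player) (X : Pos) : wins p q (add Nn X) ↔ wins p q (add terL X) := by
  constructor
  · intro h
    by_contra h2
    have h3 := transfer (other p) _ X le_rfl q (not_wins h2)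
    exact ((wins_other_iff p _ q _ le_rfl).mp h3) h
  · exact transfer p _ X le_rfl q

lemma outcome_congr {G H : Pos}
    (h : ∀ q : Player, wins Player.left q G ↔ wins Player.left q H) : outcome G = outcome H := by
  have h1 := h Player.left
  have h2 := h Player.right
  unfold outcome
  by_cases a1 : wins Player.left Player.left H <;>
    by_cases a2 : wins Player.left Player.right H <;> simp [h1, h2, a1, a2]

lemma equi_Nn : Equi Nn terL := fun X => outcome_congr fun q => wins_Nn Player.left q X

lemma equi_refl (G : Pos) : Equi G G := fun _ => rfl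

lemma equi_symm {G H : Pos} (h : Equi G H) : Equi H G := fun X => (h X).symm

/-- `{{*L, *R}}` -/
def X₀ : Pos := single (ofList [terL, terR])

/-- `{{{*L, *R}}}` -/
def Y₀ : Pos := single X₀

lemma outcome_eq {G H : Pos} (h : outcome G = outcome H) (q : Player) :
    wins Player.left q G ↔ wins Player.left q H := by
  unfold outcome at h
  by_cases h1 : wins Player.left Player.left G <;> by_cases h2 : wins Player.left Player.right G <;>
    by_cases h3 : wins Player.left Player.left H <;>
    by_cases h4 : wins Player.left Player.right H <;> cases q <;> simp_all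


/-! ### Some inequivalences -/

/-- Left, moving first, loses `*L + {{*L, *R}}`. -/
lemma lose_terL_X₀ : ¬ wins Player.left Player.left (add terL X₀) := by
  have e : Player.left = other Player.right := rfl
  have h0 : wins Player.right Player.left (add terL X₀) := by
    rw [e, wins_add_other (Or.inr (by simp [X₀, opts_single]))]
    refine ⟨by simp [opts], ?_⟩
    intro y hy
    simp only [X₀, opts_single, List.mem_cons, List.not_mem_nil, or_false] at hy
    subst hy
    rw [wins_add_self (Or.inr (by simp [opts_ofList]))]
    right
    exact ⟨terR, by simp [opts_ofList], by simp [add, wins]⟩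
  intro h
  have := (wins_other_iff Player.left _ Player.left _ le_rfl).mp h0
  exact this h

/-- Left, moving first, wins `{*L} + {{*L, *R}}`. -/
lemma win_tL_X₀ : wins Player.left Player.left (add tL X₀) := by
  rw [wins_add_self (Or.inl (by simp [opts_tL]))]
  left
  refine ⟨terL, by simp [opts_tL], ?_⟩
  rw [wins_add_other (Or.inr (by simp [X₀, opts_single]))]
  refine ⟨by simp [opts], ?_⟩
  intro y hy
  simp only [X₀, opts_single, List.mem_cons, List.not_mem_nil, or_false] at hy
  subst hy
  rw [wins_add_self (Or.inr (by simp [opts_ofList]))]
  right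
  exact ⟨terL, by simp [opts_ofList], by simp [add, wins]⟩

/-- Right, moving first, wins `{*L} + {{*L, *R}}`. -/
lemma win_right_tL_X₀ : wins Player.right Player.right (add tL X₀) := by
  rw [wins_add_self (Or.inl (by simp [opts_tL]))]
  left
  refine ⟨terL, by simp [opts_tL], ?_⟩
  rw [wins_add_other (Or.inr (by simp [X₀, opts_single]))]
  refine ⟨by simp [opts], ?_⟩
  intro y hy
  simp only [X₀, opts_single, List.mem_cons, List.not_mem_nil, or_false] at hy
  subst hy
  rw [wins_add_self (Or.inr (by simp [opts_ofList]))]
  right
  exact ⟨terR, by simp [opts_ofList], by simp [add, wins]⟩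

lemma not_equi_terL_tL : ¬ Equi terL tL := by
  intro h
  have h1 := (outcome_eq (h X₀) Player.left).mpr win_tL_X₀
  exact lose_terL_X₀ h1

/-- Right, moving first, wins `*L + {{{*L, *R}}}`. -/
lemma win_right_terL_Y₀ : wins Player.right Player.right (add terL Y₀) := by
  rw [wins_add_self (Or.inr (by simp [Y₀, opts_single]))]
  right
  refine ⟨X₀, by simp [Y₀, opts_single], ?_⟩
  rw [wins_add_other (Or.inr (by simp [X₀, opts_single]))]
  refine ⟨by simp [opts], ?_⟩
  intro y hy
  simp only [X₀, opts_single, List.mem_cons, List.not_mem_nil, or_false] at hy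
  subst hy
  rw [wins_add_self (Or.inr (by simp [opts_ofList]))]
  right
  exact ⟨terR, by simp [opts_ofList], by simp [add, wins]⟩

/-- Left, moving first, wins `*L + {{{*L, *R}}}`. -/
lemma win_left_terL_Y₀ : wins Player.left Player.left (add terL Y₀) := by
  rw [wins_add_self (Or.inr (by simp [Y₀, opts_single]))]
  right
  refine ⟨X₀, by simp [Y₀, opts_single], ?_⟩
  rw [wins_add_other (Or.inr (by simp [X₀, opts_single]))]
  refine ⟨by simp [opts], ?_⟩
  intro y hy
  simp only [X₀, opts_single, List.mem_cons, List.not_mem_nil, or_false] at hy
  subst hy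
  rw [wins_add_self (Or.inr (by simp [opts_ofList]))]
  right
  exact ⟨terL, by simp [opts_ofList], by simp [add, wins]⟩

/-- The player who does not move first wins `{*L} + {{{*L, *R}}}`: Left moves, Right wins. -/
lemma lose_tL_Y₀ : wins Player.right (other Player.right) (add tL Y₀) := by
  rw [wins_add_other (Or.inl (by simp [opts_tL]))]
  constructor
  · intro x hx
    simp only [opts_tL, List.mem_cons, List.not_mem_nil, or_false] at hx
    subst hx
    exact win_right_terL_Y₀
  · intro y hy
    simp only [Y₀, opts_single, List.mem_cons, List.not_mem_nil, or_false] at hy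
    subst hy
    exact win_right_tL_X₀

/-- Right moves first, Left wins `{*L} + {{{*L, *R}}}`. -/
lemma win_second_tL_Y₀ : wins Player.left (other Player.left) (add tL Y₀) := by
  rw [wins_add_other (Or.inl (by simp [opts_tL]))]
  constructor
  · intro x hx
    simp only [opts_tL, List.mem_cons, List.not_mem_nil, or_false] at hx
    subst hx
    exact win_left_terL_Y₀
  · intro y hy
    simp only [Y₀, opts_single, List.mem_cons, List.not_mem_nil, or_false] at hy
    subst hy
    exact win_tL_X₀

/-- Left, moving first, wins `{*L, {*L}} + {{{*L, *R}}}`. -/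
lemma win_G₁_Y₀ : wins Player.left Player.left (add G₁ Y₀) := by
  rw [wins_add_self (Or.inl (by simp [opts_G₁]))]
  left
  exact ⟨tL, by simp [opts_G₁], win_second_tL_Y₀⟩

lemma not_equi_G₁_tL : ¬ Equi G₁ tL := by
  intro h
  have h1 := (outcome_eq (h Y₀) Player.left).mp win_G₁_Y₀
  have h2 := (wins_other_iff Player.left _ Player.left _ le_rfl).mp lose_tL_Y₀
  exact h2 h1

/-- `{*R}` -/
def tR : Pos := single terR

/-- Left wins `{*L, {*L}}` when Left moves first. -/
lemma win_G₁ : wins Player.left Player.left (add G₁ terL) := by
  rw [wins_add_self (Or.inl (by simp [opts_G₁]))]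
  left
  exact ⟨terL, by simp [opts_G₁], by simp [add, wins]⟩

lemma lose_tR : wins Player.right (other Player.right) (add tR terL) := by
  rw [wins_add_other (Or.inl (by simp [tR, opts_single]))]
  constructor
  · intro x hx
    simp only [tR, opts_single, List.mem_cons, List.not_mem_nil, or_false] at hx
    subst hx
    simp [add, wins]
  · intro y hy
    simp [opts] at hy

lemma not_equi_G₁_tR : ¬ Equi G₁ tR := by
  intro h
  have h1 := (outcome_eq (h terL) Player.left).mp win_G₁
  have h2 := (wins_other_iff Player.left _ Player.left _ le_rfl).mp lose_tR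
  exact h2 h1

/-! ### Reducedness -/

lemma no_step_terL (H : Pos) : ¬ Step terL H := by
  intro h
  cases h with
  | s1L G G' h1 h2 h3 => simp [opts] at h1
  | s1R G G' h1 h2 h3 => simp [opts] at h1
  | s2 G G' rest h1 h2 h3 =>
    have := h1.length_eq
    simp [opts] at this
  | inside G x x' pre post h1 h2 =>
    have := congrArg List.length h1
    simp [opts] at this

lemma no_step_tL (H : Pos) : ¬ Step tL H := by
  intro h
  have hno : ∀ (P : Pos → Prop), ¬ (∀ x ∈ opts tL, ∃ y ∈ opts x, P y) := by
    intro P h
    obtain ⟨y, hy, _⟩ := h terL (by simp [opts_tL])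
    simp [opts] at hy
  cases h with
  | s1L G G' h1 h2 h3 => exact hno _ h3
  | s1R G G' h1 h2 h3 => exact hno _ h3
  | s2 G G' rest h1 h2 h3 =>
    have := h1.length_eq
    rw [opts_tL] at this
    simp only [List.length_cons, List.length_nil] at this
    apply h2
    apply List.eq_nil_of_length_eq_zero
    omega
  | inside G x x' pre post h1 h2 =>
    have hx : x ∈ opts tL := by
      rw [h1]
      simp
    rw [opts_tL] at hx
    simp only [List.mem_cons, List.not_mem_nil, or_false] at hx
    subst hx
    exact no_step_terL _ h2

lemma no_step_G₁ (H : Pos) : ¬ Step G₁ H := by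
  intro h
  have hno : ∀ (P : Pos → Prop), ¬ (∀ x ∈ opts G₁, ∃ y ∈ opts x, P y) := by
    intro P h
    obtain ⟨y, hy, _⟩ := h terL (by simp [opts_G₁])
    simp [opts] at hy
  cases h with
  | s1L G G' h1 h2 h3 => exact hno _ h3
  | s1R G G' h1 h2 h3 => exact hno _ h3
  | s2 G G' rest h1 h2 h3 =>
    rw [opts_G₁] at h1
    have m1 : terL ∈ G' :: rest := h1.mem_iff.mp (by simp)
    have m2 : tL ∈ G' :: rest := h1.mem_iff.mp (by simp)
    rcases List.mem_cons.mp m1 with hm | hm
    · subst hm
      rcases List.mem_cons.mp m2 with hm2 | hm2
      · simp [tL, single] at hm2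
      · obtain ⟨y, hy, hy2⟩ := h3 tL hm2
        rw [opts_tL] at hy
        simp only [List.mem_cons, List.not_mem_nil, or_false] at hy
        subst hy
        exact not_equi_terL_tL hy2
    · obtain ⟨y, hy, _⟩ := h3 terL hm
      simp [opts] at hy
  | inside G x x' pre post h1 h2 =>
    have hx : x ∈ opts G₁ := by
      rw [h1]
      simp
    rw [opts_G₁] at hx
    simp only [List.mem_cons, List.not_mem_nil, or_false] at hx
    rcases hx with rfl | rfl
    · exact no_step_terL _ h2
    · exact no_step_tL _ h2

lemma no_step_Nn (H : Pos) : ¬ Step Nn H := by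
  intro h
  cases h with
  | s1L G G' h1 h2 h3 =>
    rw [opts_Nn] at h1
    simp only [List.mem_cons, List.not_mem_nil, or_false] at h1
    subst h1
    exact not_equi_G₁_tL h2
  | s1R G G' h1 h2 h3 =>
    rw [opts_Nn] at h1
    simp only [List.mem_cons, List.not_mem_nil, or_false] at h1
    subst h1
    exact not_equi_G₁_tR h2
  | s2 G G' rest h1 h2 h3 =>
    have := h1.length_eq
    rw [opts_Nn] at this
    simp only [List.length_cons, List.length_nil] at this
    apply h2
    apply List.eq_nil_of_length_eq_zero
    omega
  | inside G x x' pre post h1 h2 =>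
    have hx : x ∈ opts Nn := by
      rw [h1]
      simp
    rw [opts_Nn] at hx
    simp only [List.mem_cons, List.not_mem_nil, or_false] at hx
    subst hx
    exact no_step_G₁ _ h2

lemma step_to_terL : Step Big terL := by
  refine Step.s1L Big tL (by simp [opts_Big]) (equi_refl _) ?_
  intro x hx
  simp only [opts_Big, List.mem_cons, List.not_mem_nil, or_false] at hx
  rcases hx with rfl | rfl
  · exact ⟨terL, terL_mem, equi_refl _⟩
  · exact ⟨terL, by simp [opts_tL], equi_refl _⟩

lemma step_to_Nn : Step Big Nn := by
  refine Step.s2 Big G₁ [tL] (List.Perm.refl _) (by simp) ?_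
  intro x hx
  simp only [List.mem_cons, List.not_mem_nil, or_false] at hx
  subst hx
  exact ⟨terL, by simp [opts_tL], equi_symm equi_Nn⟩

/-- Q1 has a negative answer: some position can be simplified by (S1) and (S2) to two reduced
positions that are not isomorphic. -/
theorem result : ∃ G A B : Pos,
    Relation.ReflTransGen Step G A ∧ Reduced A ∧
    Relation.ReflTransGen Step G B ∧ Reduced B ∧ ¬ Iso A B := by
  refine ⟨Big, terL, Nn, Relation.ReflTransGen.single step_to_terL, no_step_terL,
    Relation.ReflTransGen.single step_to_Nn, no_step_Nn, ?_⟩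
  unfold Nn single
  simp [Iso]

end Pool.Agent.Results.MP_31d4f2_co.TwoReducedForms
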